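import Pool.Agent.Y303.SK.XDefs

/-!
# Decomposition of axisymmetric fields into the swirl-free part and the swirl
-/

open Set Filter Topology MeasureTheory Metric

set_option autoImplicit false

namespace Pool.Agent.Y366.SKX

open Pool.Agent.Y5 (E3)
open Pool.Agent.Y303.SK

/-- the reflection `(x, y, z) ↦ (x, -y, z)` -/
noncomputable def rhl : E3 →ₗ[ℝ] E3 where
  toFun x := WithLp.toLp 2 ![x 0, -x 1, x 2]
  map_add' := fun x y => by
    ext i
    fin_cases i <;> simp
    ring
  map_smul' := fun r x => by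
    ext i
    fin_cases i <;> simp

theorem rhl_rhl : Function.Involutive rhl := by
  intro x
  ext i
  fin_cases i <;> simp [rhl]

noncomputable def rho : E3 ≃ₗᵢ[ℝ] E3 :=
  { LinearEquiv.ofInvolutive rhl rhl_rhl with
    norm_map' := by
      intro x
      change ‖rhl x‖ = ‖x‖
      rw [EuclideanSpace.norm_eq, EuclideanSpace.norm_eq, Fin.sum_univ_three, Fin.sum_univ_three]
      simp [rhl] }

@[simp] theorem rho_0 (x : E3) : (rho x) 0 = x 0 := rfl
@[simp] theorem rho_1 (x : E3) : (rho x) 1 = -x 1 := rfl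
@[simp] theorem rho_2 (x : E3) : (rho x) 2 = x 2 := rfl

theorem rho_rho (x : E3) : rho (rho x) = x := rhl_rhl x

theorem ext3 {x y : E3} (h0 : x 0 = y 0) (h1 : x 1 = y 1) (h2 : x 2 = y 2) : x = y := by
  ext i
  fin_cases i
  · exact h0
  · exact h1
  · exact h2

@[simp] theorem rtz_0 (θ : ℝ) (x : E3) : (rtz θ x) 0 = Real.cos θ * x 0 - Real.sin θ * x 1 := rfl
@[simp] theorem rtz_1 (θ : ℝ) (x : E3) : (rtz θ x) 1 = Real.sin θ * x 0 + Real.cos θ * x 1 := rfl
@[simp] theorem rtz_2 (θ : ℝ) (x : E3) : (rtz θ x) 2 = x 2 := rfl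

theorem rho_rtz (θ : ℝ) (x : E3) : rho (rtz θ x) = rtz (-θ) (rho x) := by
  apply ext3
  · simp
  · simp
    ring
  · simp

/-- every point is a rotation of a point with second coordinate zero -/
theorem exists_rtz (x : E3) : ∃ (θ : ℝ) (p : E3), x = rtz θ p ∧ p 1 = 0 := by
  refine ⟨Complex.arg ⟨x 0, x 1⟩, WithLp.toLp 2 ![‖(⟨x 0, x 1⟩ : ℂ)‖, 0, x 2], ?_, rfl⟩
  have h1 := Complex.norm_mul_cos_arg (⟨x 0, x 1⟩ : ℂ)
  have h2 := Complex.norm_mul_sin_arg (⟨x 0, x 1⟩ : ℂ)
  apply ext3
  · rw [rtz_0]
    simp only [] at h1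
    simp
    linarith
  · rw [rtz_1]
    simp only [] at h2
    simp
    linarith
  · simp

theorem rho_fix {p : E3} (hp : p 1 = 0) : rho p = p := by
  apply ext3 <;> simp [hp]

/-- swirl-free fields are even -/
theorem pol_rho {u : E3 → E3} (hu : Pol u) (x : E3) : u (rho x) = rho (u x) := by
  obtain ⟨θ, p, rfl, hp⟩ := exists_rtz x
  have h1 : u p 1 = 0 := by
    by_cases hr : p 0 = 0
    · have h2 : rtz Real.pi p = p := by
        apply ext3 <;> simp [hp, hr]
      have h3 := hu.axi Real.pi p
      rw [h2] at h3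
      have h4 := congrArg (fun w : E3 => w 1) h3
      simp at h4
      linarith
    · have h2 := hu.swirl p
      rw [hp] at h2
      simpa [hr] using h2
  rw [rho_rtz, rho_fix hp, hu.axi, hu.axi, rho_rtz, rho_fix h1]

/-- swirl fields are odd -/
theorem swl_rho {g : E3 → E3} (hg : Swl g) (x : E3) : g (rho x) = -rho (g x) := by
  obtain ⟨θ, p, rfl, hp⟩ := exists_rtz x
  have h0 : g p 0 = 0 := by
    by_cases hr : p 0 = 0
    · have h2 : rtz Real.pi p = p := by
        apply ext3 <;> simp [hp, hr]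
      have h3 := hg.axi Real.pi p
      rw [h2] at h3
      have h4 := congrArg (fun w : E3 => w 0) h3
      simp at h4
      linarith
    · have h2 := (hg.pol p).2
      rw [hp] at h2
      simpa [hr] using h2
  have h2 : g p 2 = 0 := (hg.pol p).1
  rw [rho_rtz, rho_fix hp, hg.axi, hg.axi, rho_rtz]
  apply ext3 <;> simp [h0, h2]

/-- axisymmetric even fields are swirl-free -/
theorem pol_of {w : E3 → E3} (ha : Axi w) (h : ∀ x, w (rho x) = rho (w x)) : Pol w := by
  refine ⟨ha, fun x => ?_⟩
  obtain ⟨θ, p, rfl, hp⟩ := exists_rtz x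
  have h1 : w p 1 = 0 := by
    have h2 := h p
    rw [rho_fix hp] at h2
    have h4 := congrArg (fun w : E3 => w 1) h2
    simp at h4
    linarith
  rw [ha]
  simp [hp, h1]
  ring

/-- axisymmetric odd fields have only swirl -/
theorem swl_of {w : E3 → E3} (ha : Axi w) (h : ∀ x, w (rho x) = -rho (w x)) : Swl w := by
  refine ⟨ha, fun x => ?_⟩
  obtain ⟨θ, p, rfl, hp⟩ := exists_rtz x
  have h2 := h p
  rw [rho_fix hp] at h2
  have h0 : w p 0 = 0 := by
    have h4 := congrArg (fun w : E3 => w 0) h2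
    simp at h4
    linarith
  have h5 : w p 2 = 0 := by
    have h4 := congrArg (fun w : E3 => w 2) h2
    simp at h4
    linarith
  rw [ha]
  constructor
  · simp [h5]
  · simp [hp, h0]
    ring

/-- the derivative of the reflected field -/
theorem fderiv_rho {v : E3 → E3} (hv : Differentiable ℝ v) (x h : E3) :
    fderiv ℝ (fun x => rho (v (rho x))) x h = rho (fderiv ℝ v (rho x) (rho h)) := by
  have h1 : HasFDerivAt (fun x : E3 => rho x) (rho.toContinuousLinearEquiv : E3 →L[ℝ] E3) x :=
    rho.toContinuousLinearEquiv.hasFDerivAt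
  have h2 : HasFDerivAt v (fderiv ℝ v (rho x)) (rho x) := (hv (rho x)).hasFDerivAt
  have h3 := h2.comp x h1
  have h4 : HasFDerivAt (fun x : E3 => rho x) (rho.toContinuousLinearEquiv : E3 →L[ℝ] E3)
    (v (rho x)) := rho.toContinuousLinearEquiv.hasFDerivAt
  have h5 := h4.comp x h3
  have h6 := h5.fderiv
  have h7 : (fun x => rho (v (rho x))) = (fun x : E3 => rho x) ∘ v ∘ fun x : E3 => rho x := rfl
  rw [h7, h6]
  rfl

/-- the signs of the reflection -/
def sg (i : Fin 3) : ℝ := if i = 1 then -1 else 1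

theorem sg_sq (i : Fin 3) : sg i * sg i = 1 := by
  unfold sg
  split_ifs <;> norm_num

theorem rho_cv (i : Fin 3) : rho (cv i) = sg i • cv i := by
  fin_cases i
  · apply ext3 <;> simp [cv, sg]
  · apply ext3 <;> simp [cv, sg]
  · apply ext3 <;> simp [cv, sg]

theorem rho_apply (w : E3) (i : Fin 3) : (rho w) i = sg i * w i := by
  fin_cases i
  · simp [sg]
  · simp [sg]
  · simp [sg]

/-- the reflected field -/
theorem cs_rho {v : E3 → E3} (hv : CS univ v) : CS univ (fun x => rho (v (rho x))) := by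
  have hs : ContDiff ℝ (⊤ : ℕ∞) (fun x : E3 => rho x) := rho.contDiff
  refine ⟨hs.comp (hv.smooth.comp hs), ?_, subset_univ _, fun x => ?_⟩
  · have h1 : HasCompactSupport (v ∘ rho.toHomeomorph) :=
      hv.cpt.comp_homeomorph rho.toHomeomorph
    exact h1.comp_left (g := fun x : E3 => rho x) (map_zero rho)
  · have hd : Differentiable ℝ v := hv.smooth.differentiable (by simp)
    have := hv.dv (rho x)
    unfold dvg at this ⊢
    rw [← this]
    refine Finset.sum_congr rfl fun i _ => ?_
    rw [fderiv_rho hd, rho_cv, rho_apply, map_smul, PiLp.smul_apply, smul_eq_mul, ← mul_assoc,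
      sg_sq, one_mul]

theorem cs_comb {v w : E3 → E3} (hv : CS univ v) (hw : CS univ w) (a b : ℝ) :
    CS univ (fun x => a • v x + b • w x) := by
  have hdv : Differentiable ℝ v := hv.smooth.differentiable (by simp)
  have hdw : Differentiable ℝ w := hw.smooth.differentiable (by simp)
  refine ⟨(hv.smooth.const_smul a).add (hw.smooth.const_smul b), ?_, subset_univ _, fun x => ?_⟩
  · have h1 : HasCompactSupport (fun x => a • v x) :=
      hv.cpt.comp_left (g := fun y : E3 => a • y) (smul_zero a)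
    have h2 : HasCompactSupport (fun x => b • w x) :=
      hw.cpt.comp_left (g := fun y : E3 => b • y) (smul_zero b)
    exact h1.add h2
  · have h1 := hv.dv x
    have h2 := hw.dv x
    unfold dvg at h1 h2 ⊢
    have e : ∀ i : Fin 3, (fderiv ℝ (fun x => a • v x + b • w x) x (cv i)) i =
        a * (fderiv ℝ v x (cv i)) i + b * (fderiv ℝ w x (cv i)) i := by
      intro i
      have h3 : HasFDerivAt (fun x => a • v x + b • w x)
          (a • fderiv ℝ v x + b • fderiv ℝ w x) x :=
        ((hdv x).hasFDerivAt.const_smul a).add ((hdw x).hasFDerivAt.const_smul b)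
      rw [h3.fderiv]
      simp
    simp only [e]
    rw [Finset.sum_add_distrib, ← Finset.mul_sum, ← Finset.mul_sum, h1, h2]
    simp

theorem axi_rho {v : E3 → E3} (hv : Axi v) : Axi (fun x => rho (v (rho x))) := by
  intro θ x
  simp only
  rw [rho_rtz, hv, rho_rtz, neg_neg]

theorem rtz_comb (θ a b : ℝ) (x y : E3) :
    rtz θ (a • x + b • y) = a • rtz θ x + b • rtz θ y := by
  apply ext3 <;> simp <;> ring

theorem axi_comb {v w : E3 → E3} (hv : Axi v) (hw : Axi w) (a b : ℝ) :
    Axi (fun x => a • v x + b • w x) := by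
  intro θ x
  simp only
  rw [hv, hw, rtz_comb]

theorem t_SPLIT : S_SPLIT := by
  intro v hv ha
  have c := cs_rho hv
  have d := axi_rho ha
  refine ⟨fun x => (1 / 2 : ℝ) • v x + (1 / 2 : ℝ) • rho (v (rho x)),
    fun x => (1 / 2 : ℝ) • v x + (-(1 / 2) : ℝ) • rho (v (rho x)), cs_comb hv c _ _,
    pol_of (axi_comb ha d _ _) ?_, cs_comb hv c _ _, swl_of (axi_comb ha d _ _) ?_, ?_⟩
  · intro x
    rw [rho_rho, map_add, map_smul, map_smul, rho_rho]
    abel
  · intro x
    rw [rho_rho, map_add, map_smul, map_smul, rho_rho]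
    module
  · intro x
    module

/-- integrals of odd functions vanish -/
theorem int_odd {F : E3 → ℝ} (h : ∀ x, F (rho x) = -F x) : ∫ x, F x = 0 := by
  have h1 : ∫ x, F (rho x) = ∫ x, F x :=
    rho.measurePreserving.integral_comp rho.toHomeomorph.measurableEmbedding F
  simp only [h] at h1
  rw [integral_neg] at h1
  linarith

theorem t_SYM : S_SYM := by
  intro u g hu hpu hg hsg
  have hdu : Differentiable ℝ u := hu.differentiable (by simp)
  have hdg : Differentiable ℝ g := hg.smooth.differentiable (by simp)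
  have eu : ∀ x, u (rho x) = rho (u x) := pol_rho hpu
  have eg : ∀ x, g (rho x) = -rho (g x) := swl_rho hsg
  have eu' : (fun x => rho (u (rho x))) = u := by
    funext x
    rw [eu, rho_rho]
  have eg' : (fun x => rho (g (rho x))) = fun x => -g x := by
    funext x
    rw [eg, map_neg, rho_rho]
  have du : ∀ x h, fderiv ℝ u (rho x) (rho h) = rho (fderiv ℝ u x h) := by
    intro x h
    have h1 := fderiv_rho hdu x h
    rw [eu'] at h1
    rw [h1, rho_rho]
  have dg : ∀ x h, fderiv ℝ g (rho x) (rho h) = -rho (fderiv ℝ g x h) := by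
    intro x h
    have h1 := fderiv_rho hdg x h
    rw [eg', fderiv_fun_neg] at h1
    have h2 : fderiv ℝ g x h = -rho (fderiv ℝ g (rho x) (rho h)) := by
      rw [← h1]
      simp
    rw [h2, map_neg, rho_rho, neg_neg]
  refine ⟨?_, ?_, ?_⟩
  · unfold ipr
    refine int_odd fun x => ?_
    rw [eu, eg, inner_neg_right, rho.inner_map_map]
  · unfold dirf
    refine int_odd fun x => ?_
    rw [← Finset.sum_neg_distrib]
    refine Finset.sum_congr rfl fun i _ => ?_
    have h1 : fderiv ℝ u (rho x) (cv i) = sg i • rho (fderiv ℝ u x (cv i)) := by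
      have h2 : cv i = sg i • rho (cv i) := by
        rw [rho_cv, smul_smul, sg_sq, one_smul]
      conv_lhs => rw [h2, map_smul, du]
    have h3 : fderiv ℝ g (rho x) (cv i) = sg i • -rho (fderiv ℝ g x (cv i)) := by
      have h2 : cv i = sg i • rho (cv i) := by
        rw [rho_cv, smul_smul, sg_sq, one_smul]
      conv_lhs => rw [h2, map_smul, dg]
    rw [h1, h3, real_inner_smul_left, real_inner_smul_right, ← mul_assoc, sg_sq, one_mul,
      inner_neg_right, rho.inner_map_map]
  · unfold adv
    refine int_odd fun x => ?_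
    rw [eg, eu, du, inner_neg_right, rho.inner_map_map]

end Pool.Agent.Y366.SKX
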